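import Mathlib

set_option autoImplicit false

namespace Pool.Agent.Results.MP_06cdda_gt.SeifertMatrices

open Matrix

/-- The condition `det (V - Vᵀ) = 1` on a `2g × 2g` integer matrix `V`. By the classical theorem of
Seifert, the matrices with this property are exactly the Seifert matrices of knots. -/
def IsSeifert {g : ℕ} (V : Matrix (Fin (2 * g)) (Fin (2 * g)) ℤ) : Prop :=
  (V - Vᵀ).det = 1

/-- The real quadratic form `x ↦ xᵀ S x` of an integer matrix. -/
noncomputable def realForm {k : ℕ} (S : Matrix (Fin k) (Fin k) ℤ) :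
    QuadraticForm ℝ (Fin k → ℝ) :=
  (S.map (Int.cast : ℤ → ℝ)).toQuadraticForm'

/-- The signature of a symmetric integer matrix: the largest dimension of a real subspace on which
its form is positive definite, minus the largest dimension of one on which it is negative
definite. -/
noncomputable def signature {k : ℕ} (S : Matrix (Fin k) (Fin k) ℤ) : ℤ :=
  (sigPos (realForm S) : ℤ) - (sigNeg (realForm S) : ℤ)

/-- The matrices used. -/
def W (X e f m h c : ℤ) : Matrix (Fin 6) (Fin 6) ℤ :=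
  !![1, 1, e, 0, 0, 0;
     0, X, 0, 0, 0, 0;
     0, 0, f, m + 1, 0, 0;
     0, 0, m, h, 0, 0;
     0, 0, 0, 0, 1, 1;
     0, 0, 0, 0, 0, -c]

lemma W_sub (X e f m h c : ℤ) : W X e f m h c - (W X e f m h c)ᵀ =
  !![0, 1, e, 0, 0, 0;
     -1, 0, 0, 0, 0, 0;
     -e, 0, 0, 1, 0, 0;
     0, 0, -1, 0, 0, 0;
     0, 0, 0, 0, 0, 1;
     0, 0, 0, 0, -1, 0] := by
  ext i j
  fin_cases i <;> fin_cases j <;> simp [W]

lemma W_add (X e f m h c : ℤ) : W X e f m h c + (W X e f m h c)ᵀ =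
  !![2, 1, e, 0, 0, 0;
     1, 2 * X, 0, 0, 0, 0;
     e, 0, 2 * f, 2 * m + 1, 0, 0;
     0, 0, 2 * m + 1, 2 * h, 0, 0;
     0, 0, 0, 0, 2, 1;
     0, 0, 0, 0, 1, -2 * c] := by
  ext i j
  fin_cases i <;> fin_cases j <;> simp [W] <;> ring

lemma det_sub (X e f m h c : ℤ) : (W X e f m h c - (W X e f m h c)ᵀ).det = 1 := by
  rw [W_sub]
  simp [Matrix.det_succ_row_zero, Fin.sum_univ_succ, Fin.succAbove]

lemma det_add (X e f m h c : ℤ) : (W X e f m h c + (W X e f m h c)ᵀ).det =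
    - (4 * c + 1) * ((4 * X - 1) * (4 * f * h - (2 * m + 1) ^ 2) - 4 * e ^ 2 * X * h) := by
  rw [W_add]
  simp [Matrix.det_succ_row_zero, Fin.sum_univ_succ, Fin.succAbove]
  ring

lemma realForm_apply (X e f m h c : ℤ) (x : Fin 6 → ℝ) :
    realForm (W X e f m h c + (W X e f m h c)ᵀ) x =
      2 * x 0 ^ 2 + 2 * x 0 * x 1 + 2 * e * x 0 * x 2 + 2 * X * x 1 ^ 2 + 2 * f * x 2 ^ 2 +
      2 * (2 * m + 1) * x 2 * x 3 + 2 * h * x 3 ^ 2 + 2 * x 4 ^ 2 + 2 * x 4 * x 5 -
      2 * c * x 5 ^ 2 := by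
  rw [W_add]
  simp [realForm, Matrix.toQuadraticForm', Matrix.toLinearMap₂'_apply, Fin.sum_univ_succ,
    LinearMap.BilinMap.toQuadraticMap_apply]
  ring

/-- The change of variables. -/
noncomputable def U (a1 a2 b c d : ℝ) : (Fin 6 → ℝ) →ₗ[ℝ] (Fin 6 → ℝ) where
  toFun x := ![x 0 + a1 * x 1 + a2 * x 2, x 1 + b * x 2, x 2 + c * x 3, x 3, x 4 + d * x 5, x 5]
  map_add' x y := by
    ext i
    fin_cases i <;> simp <;> ring
  map_smul' r x := by
    ext i
    fin_cases i <;> simp <;> ring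

lemma U_inj (a1 a2 b c d : ℝ) : Function.Injective (U a1 a2 b c d) := by
  rw [injective_iff_map_eq_zero]
  intro x hx
  have h5 : x 5 = 0 := by simpa [U] using congrFun hx 5
  have h4 : x 4 + d * x 5 = 0 := by simpa [U] using congrFun hx 4
  have h3 : x 3 = 0 := by simpa [U] using congrFun hx 3
  have h2 : x 2 + c * x 3 = 0 := by simpa [U] using congrFun hx 2
  have h1 : x 1 + b * x 2 = 0 := by simpa [U] using congrFun hx 1
  have h0 : x 0 + a1 * x 1 + a2 * x 2 = 0 := by simpa [U] using congrFun hx 0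
  have e4 : x 4 = 0 := by rw [h5] at h4; linarith
  have e2 : x 2 = 0 := by rw [h3] at h2; linarith
  have e1 : x 1 = 0 := by rw [e2] at h1; linarith
  have e0 : x 0 = 0 := by rw [e2, e1] at h0; linarith
  ext i
  fin_cases i <;> simp [e0, e1, e2, h3, e4, h5]

lemma signature_W (X e f m h c : ℤ) (A B C : ℝ) (hA : A = 2 * X - 1 / 2)
    (hB : B = 2 * f - e ^ 2 / 2 - e ^ 2 / (4 * A)) (hC : C = 2 * h - (2 * m + 1) ^ 2 / B)
    (hA0 : 0 < A) (hB0 : 0 < B) (hC0 : 0 < C) (hc : 0 ≤ c) :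
    signature (W X e f m h c + (W X e f m h c)ᵀ) = 4 := by
  set w : Fin 6 → ℝ := ![2, A, B, C, 2, -(2 * c + 1 / 2)] with hw
  have heq : QuadraticMap.Equivalent (realForm (W X e f m h c + (W X e f m h c)ᵀ))
      (QuadraticMap.weightedSumSquares ℝ w) := by
    refine ⟨⟨LinearEquiv.ofInjectiveEndo
      (U (1 / 2) (e / 2) (-(e / (2 * A))) ((2 * m + 1) / B) (1 / 2)) (U_inj _ _ _ _ _), ?_⟩⟩
    intro x
    rw [realForm_apply]
    simp only [QuadraticMap.weightedSumSquares_apply, Fin.sum_univ_six, U, hw]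
    simp
    have eX : (X : ℝ) = (A + 1 / 2) / 2 := by linarith
    have ef : (f : ℝ) = (B + e ^ 2 / 2 + e ^ 2 / (4 * A)) / 2 := by linarith
    have eh : (h : ℝ) = (C + (2 * m + 1) ^ 2 / B) / 2 := by linarith
    rw [eX, ef, eh]
    field_simp
    ring
  have hcR : (0 : ℝ) ≤ c := by exact_mod_cast hc
  have hp : sigPos (realForm (W X e f m h c + (W X e f m h c)ᵀ)) = 5 := by
    rw [QuadraticForm.sigPos_of_equiv_weightedSumSquares heq]
    have : {i | 0 < w i} = ({0, 1, 2, 3, 4} : Finset (Fin 6)) := by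
      ext i
      fin_cases i <;> simp [hw, hA0, hB0, hC0]
      linarith
    rw [this, Set.ncard_coe_finset]
    rfl
  have hn : sigNeg (realForm (W X e f m h c + (W X e f m h c)ᵀ)) = 1 := by
    rw [QuadraticForm.sigNeg_of_equiv_weightedSumSquares heq]
    have : {i | w i < 0} = ({5} : Finset (Fin 6)) := by
      ext i
      fin_cases i <;> simp [hw, hA0.le, hB0.le, hC0.le]
      linarith
    rw [this, Set.ncard_coe_finset]
    rfl
  rw [signature, hp, hn]
  norm_num

/-- A prime that is a nonresidue modulo `p` and congruent to 5 modulo 12. -/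
lemma exists_q (p : ℕ) [Fact p.Prime] (hp : p % 4 = 1) :
    ∃ q : ℕ, q.Prime ∧ 3 < q ∧ q % 12 = 5 ∧ ¬ IsSquare (q : ZMod p) := by
  have hp5 : 5 ≤ p := by
    have := (Fact.out : p.Prime).two_le
    omega
  obtain ⟨r, hr⟩ : ∃ r : ZMod p, ¬ IsSquare r := by
    apply FiniteField.exists_nonsquare
    rw [ZMod.ringChar_zmod_n]
    omega
  have hr0 : r ≠ 0 := by
    rintro rfl
    exact hr (IsSquare.zero)
  have hcop : Nat.Coprime p 12 := by
    rw [Nat.Prime.coprime_iff_not_dvd Fact.out]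
    intro hd
    have := Nat.le_of_dvd (by norm_num) hd
    interval_cases p <;> omega
  obtain ⟨a, ha1, ha2⟩ := Nat.chineseRemainder hcop r.val 5
  have hap : (a : ZMod p) = r := by
    rw [(ZMod.natCast_eq_natCast_iff _ _ _).mpr ha1, ZMod.natCast_zmod_val]
  have hcop2 : Nat.Coprime a (p * 12) := by
    apply Nat.Coprime.mul_right
    · rw [Nat.coprime_comm, Nat.Prime.coprime_iff_not_dvd Fact.out]
      intro hd
      rw [← ZMod.natCast_eq_zero_iff, hap] at hd
      exact hr0 hd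
    · have : Nat.gcd a 12 = Nat.gcd 5 12 := Nat.ModEq.gcd_eq ha2
      exact this
  obtain ⟨q, hq3, hq, hqa⟩ := Nat.forall_exists_prime_gt_and_modEq 3
    (by positivity : p * 12 ≠ 0) hcop2
  have hq1 : q ≡ a [MOD p] := hqa.of_mul_right 12
  have hq2 : q ≡ a [MOD 12] := hqa.of_mul_left p
  refine ⟨q, hq, hq3, ?_, ?_⟩
  · exact hq2.trans ha2
  · rw [(ZMod.natCast_eq_natCast_iff _ _ _).mpr hq1, hap]
    exact hr

lemma not_sq_two : ¬ IsSquare (2 : ZMod 3) := by decide

/-- For a prime `p ≡ 1 mod 4` there are such `q` and an odd `g` with `4 q ∣ p + 3 g ^ 2`. -/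
lemma exists_g (p : ℕ) [Fact p.Prime] (hp : p % 4 = 1) :
    ∃ q m h : ℕ, q % 3 = 2 ∧ 0 < q ∧ 0 < h ∧ 4 * h * q = p + 3 * (2 * m + 1) ^ 2 := by
  obtain ⟨q, hq, hq3, hq12, hqs⟩ := exists_q p hp
  have : Fact q.Prime := ⟨hq⟩
  have : Fact (Nat.Prime 3) := ⟨Nat.prime_three⟩
  have hpq : ¬ IsSquare (p : ZMod q) := by
    rwa [← ZMod.exists_sq_eq_prime_iff_of_mod_four_eq_one hp (by omega)]
  have h3q : ¬ IsSquare (3 : ZMod q) := by
    have h1 : IsSquare ((3 : ℕ) : ZMod q) ↔ IsSquare ((q : ℕ) : ZMod 3) :=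
      (ZMod.exists_sq_eq_prime_iff_of_mod_four_eq_one (p := q) (q := 3) (by omega)
        (by norm_num))
    have h2 : ((q : ℕ) : ZMod 3) = 2 := by
      have : q ≡ 2 [MOD 3] := by
        rw [Nat.ModEq]
        omega
      exact_mod_cast (ZMod.natCast_eq_natCast_iff _ _ _).mpr this
    rw [h2] at h1
    intro h4
    exact not_sq_two (h1.mp (by exact_mod_cast h4))
  have hm1 : IsSquare (-1 : ZMod q) := by
    rw [ZMod.exists_sq_eq_neg_one_iff]
    omega
  -- product of two nonsquares is a square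
  have hne2 : ringChar (ZMod q) ≠ 2 := by
    rw [ZMod.ringChar_zmod_n]
    omega
  have hp0 : (p : ZMod q) ≠ 0 := by
    intro h0
    exact hpq (h0 ▸ IsSquare.zero)
  have h30 : (3 : ZMod q) ≠ 0 := by
    intro h0
    exact h3q (h0 ▸ IsSquare.zero)
  have hs : IsSquare (-1 * 3 * p : ZMod q) := by
    have e1 := (quadraticChar_neg_one_iff_not_isSquare (F := ZMod q)).mpr hpq
    have e2 := (quadraticChar_neg_one_iff_not_isSquare (F := ZMod q)).mpr h3q
    have e3 := (quadraticChar_one_iff_isSquare (F := ZMod q) (neg_ne_zero.mpr one_ne_zero)).mpr hm1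
    have e4 : quadraticChar (ZMod q) (-1 * 3 * p) = 1 := by
      rw [map_mul, map_mul, e1, e2, e3]
      norm_num
    exact (quadraticChar_one_iff_isSquare (mul_ne_zero (mul_ne_zero
      (neg_ne_zero.mpr one_ne_zero) h30) hp0)).mp e4
  obtain ⟨y, hy⟩ := hs
  set z : ZMod q := y / 3 with hz
  have hz1 : (p : ZMod q) + 3 * z ^ 2 = 0 := by
    have : 3 * (y / 3) ^ 2 = y * y / 3 := by field_simp
    rw [hz, this, ← hy]
    field_simp
    ring
  -- odd representative
  obtain ⟨m, hm⟩ : ∃ m : ℕ, ((2 * m + 1 : ℕ) : ZMod q) = z := by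
    have hzv : ((z.val : ℕ) : ZMod q) = z := ZMod.natCast_zmod_val z
    rcases Nat.even_or_odd z.val with h | h
    · have hodd : Odd (z.val + q) := by
        rw [Nat.odd_add]
        constructor
        · intro h2
          exact absurd h (Nat.not_even_iff_odd.mpr h2)
        · intro h2
          exfalso
          rw [Nat.even_iff] at h2
          omega
      obtain ⟨m, hm⟩ := hodd
      refine ⟨m, ?_⟩
      rw [← hm, Nat.cast_add, hzv, ZMod.natCast_self, add_zero]
    · obtain ⟨m, hm⟩ := h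
      exact ⟨m, by rw [← hm, hzv]⟩
  have hdvd : q ∣ p + 3 * (2 * m + 1) ^ 2 := by
    rw [← ZMod.natCast_eq_zero_iff]
    push_cast
    have : (2 * (m : ZMod q) + 1) = z := by
      rw [← hm]
      push_cast
      ring
    rw [this]
    exact hz1
  have hdvd4 : 4 ∣ p + 3 * (2 * m + 1) ^ 2 := by
    have h1 : p = 4 * (p / 4) + 1 := by omega
    rw [h1]
    exact ⟨p / 4 + 1 + 3 * (m ^ 2 + m), by ring⟩
  have hcop : Nat.Coprime 4 q := by
    have : Nat.Coprime 2 q := by
      rw [Nat.coprime_comm]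
      exact (Nat.coprime_primes hq Nat.prime_two).mpr (by omega)
    exact Nat.Coprime.pow_left 2 this
  obtain ⟨h, hh⟩ := Nat.Coprime.mul_dvd_of_dvd_of_dvd hcop hdvd4 hdvd
  refine ⟨q, m, h, by omega, hq.pos, ?_, by rw [hh]; ring⟩
  rcases Nat.eq_zero_or_pos h with h0 | h0
  · rw [h0] at hh
    have := (Fact.out : p.Prime).pos
    omega
  · exact h0

/-- **Main result.** For every integer `n ≥ 5` with `n ≡ 1 mod 4` there is a Seifert matrix `V` of a
knot (an integer `2g × 2g` matrix with `det (V - Vᵀ) = 1`) whose symmetrisation `V + Vᵀ` has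
determinant `n` in absolute value and signature `4`. -/
theorem result (n : ℕ) (hn : 5 ≤ n) (hn4 : n % 4 = 1) :
    ∃ (g : ℕ) (V : Matrix (Fin (2 * g)) (Fin (2 * g)) ℤ),
      IsSeifert V ∧ |(V + Vᵀ).det| = n ∧ signature (V + Vᵀ) = 4 := by
  by_cases hcase : ∃ l, l.Prime ∧ l ∣ n ∧ l % 4 = 3
  · -- orthogonal sum of two definite binary forms
    obtain ⟨l, hl, ⟨b, hb⟩, hl4⟩ := hcase
    have hb4 : b % 4 = 3 := by
      have h1 : n % 4 = (l % 4) * (b % 4) % 4 := by rw [hb, Nat.mul_mod]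
      rw [hn4, hl4] at h1
      have h2 : b % 4 < 4 := Nat.mod_lt _ (by norm_num)
      interval_cases (b % 4) <;> omega
    obtain ⟨X, hX⟩ : ∃ X, l + 1 = 4 * X := ⟨(l + 1) / 4, by omega⟩
    obtain ⟨h, hh⟩ : ∃ h, b + 1 = 4 * h := ⟨(b + 1) / 4, by omega⟩
    have hX1 : 1 ≤ X := by omega
    have hh1 : 1 ≤ h := by omega
    have hX1R : (1 : ℝ) ≤ X := by exact_mod_cast hX1
    have hh1R : (1 : ℝ) ≤ h := by exact_mod_cast hh1
    refine ⟨3, W X 0 1 0 h 0, det_sub _ _ _ _ _ _, ?_, ?_⟩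
    · rw [det_add]
      have e1 : -(4 * (0 : ℤ) + 1) * ((4 * X - 1) * (4 * 1 * h - (2 * 0 + 1) ^ 2) -
          4 * 0 ^ 2 * X * h) = - n := by
        have hl' : (l : ℤ) = 4 * X - 1 := by
          have : (l : ℤ) + 1 = 4 * X := by exact_mod_cast hX
          linarith
        have hb' : (b : ℤ) = 4 * h - 1 := by
          have : (b : ℤ) + 1 = 4 * h := by exact_mod_cast hh
          linarith
        rw [hb]
        push_cast
        rw [hl', hb']
        ring
      rw [e1, abs_neg, abs_of_nonneg (by positivity)]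
    · apply signature_W X 0 1 0 h 0 (2 * X - 1 / 2) 2 (2 * h - 1 / 2)
      · simp
      · simp
      · simp
      · linarith
      · norm_num
      · linarith
      · norm_num
  · push Not at hcase
    -- a prime factor congruent to 1 mod 4
    obtain ⟨p, hp, b, hb⟩ := Nat.exists_prime_and_dvd (by omega : n ≠ 1)
    have hp4 : p % 4 = 1 := by
      have h1 := hcase p hp ⟨b, hb⟩
      have h2 : ¬ 2 ∣ p := by
        intro h2
        have : 2 ∣ n := h2.trans ⟨b, hb⟩
        omega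
      omega
    have hb4 : b % 4 = 1 := by
      have h1 : n % 4 = (p % 4) * (b % 4) % 4 := by rw [hb, Nat.mul_mod]
      rw [hn4, hp4] at h1
      have h2 : b % 4 < 4 := Nat.mod_lt _ (by norm_num)
      omega
    have : Fact p.Prime := ⟨hp⟩
    obtain ⟨q, m, h, hq3, hq0, hh0, hqm⟩ := exists_g p hp4
    obtain ⟨c, hc⟩ : ∃ c, b = 4 * c + 1 := ⟨b / 4, by omega⟩
    obtain ⟨f, hf⟩ : ∃ f, q + 1 = 3 * f := ⟨(q + 1) / 3, by omega⟩
    have hf1 : 1 ≤ f := by omega
    have hqf : (q : ℤ) = 3 * f - 1 := by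
      have : (q : ℤ) + 1 = 3 * f := by exact_mod_cast hf
      linarith
    have hpz : (p : ℤ) = 4 * h * (3 * f - 1) - 3 * (2 * m + 1) ^ 2 := by
      have : (4 : ℤ) * h * q = p + 3 * (2 * m + 1) ^ 2 := by exact_mod_cast hqm
      rw [hqf] at this
      linarith
    have hf1R : (1 : ℝ) ≤ f := by exact_mod_cast hf1
    have hB0 : (0 : ℝ) < 2 * f - 2 / 3 := by linarith
    refine ⟨3, W 1 1 f m h c, det_sub _ _ _ _ _ _, ?_, ?_⟩
    · rw [det_add]
      have e1 : -(4 * (c : ℤ) + 1) * ((4 * 1 - 1) * (4 * f * h - (2 * m + 1) ^ 2) -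
          4 * 1 ^ 2 * 1 * h) = - n := by
        rw [hb, hc]
        push_cast
        rw [hpz]
        ring
      rw [e1, abs_neg, abs_of_nonneg (by positivity)]
    · apply signature_W 1 1 f m h c (3 / 2) (2 * f - 2 / 3)
        (2 * h - (2 * m + 1) ^ 2 / (2 * f - 2 / 3))
      · norm_num
      · push_cast
        norm_num
        ring
      · push_cast
        ring
      · norm_num
      · exact hB0
      · rw [sub_pos, div_lt_iff₀ hB0]
        have hpR : (p : ℝ) = 4 * h * (3 * f - 1) - 3 * (2 * m + 1) ^ 2 := by exact_mod_cast hpz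
        have hp0 : (0 : ℝ) < p := by exact_mod_cast hp.pos
        nlinarith
      · positivity

end Pool.Agent.Results.MP_06cdda_gt.SeifertMatrices
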